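import Pool.Agent.Helper20.NS5.Goals
import Pool.Agent.Helper65.Gen3.Mom
import Pool.Agent.Helper19.Gen3.IND

/-!
# Project NS5 (MP_c578c8_lc): packet MOM, the moment of order `2 k` on a set
-/

namespace Pool.Agent.Helper90.NS5

open Pool.Agent.Helper65.LinSpace Pool.Agent.Helper78.Avg Finset
open Pool.Agent.Helper65.Gen3 (pP hs IND_stmt odds prod_odds two_card_le mom_aux)
open Pool.Agent.Helper20.NS5

theorem card_values {m d : ℕ} (T : Finset ℕ) :
    ((Fintype.piFinset fun _ : Fin m => T).filter fun τ => (univ.image τ).card = d).card ≤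
      T.card ^ d * d ^ m := by
  classical
  let G : Finset ((Fin d → ℕ) × (Fin m → Fin d)) :=
    (Fintype.piFinset fun _ : Fin d => T) ×ˢ univ
  have hG : G.card = T.card ^ d * d ^ m := by
    rw [card_product, Fintype.card_piFinset]
    simp
  rw [← hG]
  refine le_trans (card_le_card ?_) (card_image_le (s := G) (f := fun g => g.1 ∘ g.2))
  intro τ hτ
  obtain ⟨h1, h2⟩ := mem_filter.1 hτ
  rw [Fintype.mem_piFinset] at h1
  let e := (univ.image τ).equivFinOfCardEq h2
  have hmem : ∀ i, τ i ∈ univ.image τ := fun i => mem_image_of_mem _ (mem_univ _)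
  refine mem_image.2 ⟨(fun j => ((e.symm j : {x // x ∈ univ.image τ}) : ℕ),
    fun i => e ⟨τ i, hmem i⟩), ?_, ?_⟩
  · refine mem_product.2 ⟨Fintype.mem_piFinset.2 fun j => ?_, mem_univ _⟩
    obtain ⟨i, _, hi⟩ := mem_image.1 (e.symm j).2
    show ((e.symm j : {x // x ∈ univ.image τ}) : ℕ) ∈ T
    rw [← hi]
    exact h1 i
  · funext i
    show ((e.symm (e ⟨τ i, hmem i⟩) : {x // x ∈ univ.image τ}) : ℕ) = τ i
    rw [Equiv.symm_apply_apply]

theorem sum_pow_le {k p : ℕ} (T : Finset ℕ) (hk : 0 < k) (hN : 1 ≤ T.card) (hp : T.card ≤ p) :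
    ∑ τ ∈ Fintype.piFinset fun _ : Fin (2 * k) => T, p ^ (2 * k - (odds τ).card) ≤
      (2 * k) ^ (2 * k + 1) * p ^ (2 * k) * T.card ^ k := by
  classical
  have hmaps : ∀ τ ∈ Fintype.piFinset fun _ : Fin (2 * k) => T,
      (univ.image τ).card ∈ Icc 1 (2 * k) := by
    intro τ _
    refine mem_Icc.2 ⟨card_pos.2 ⟨τ ⟨0, by omega⟩, mem_image_of_mem _ (mem_univ _)⟩, ?_⟩
    refine card_image_le.trans ?_
    simp
  rw [← sum_fiberwise_of_maps_to hmaps]
  have hd : ∀ d ∈ Icc 1 (2 * k),
      ∑ τ ∈ (Fintype.piFinset fun _ : Fin (2 * k) => T).filter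
        (fun τ => (univ.image τ).card = d), p ^ (2 * k - (odds τ).card) ≤
      (2 * k) ^ (2 * k) * p ^ (2 * k) * T.card ^ k := by
    intro d hd
    obtain ⟨_, hd2⟩ := mem_Icc.1 hd
    have h1 : T.card ^ d * ∑ τ ∈ (Fintype.piFinset fun _ : Fin (2 * k) => T).filter
        (fun τ => (univ.image τ).card = d), p ^ (2 * k - (odds τ).card) ≤
        T.card ^ d * ((2 * k) ^ (2 * k) * p ^ (2 * k) * T.card ^ k) := by
      rw [mul_sum]
      calc _ ≤ ∑ τ ∈ (Fintype.piFinset fun _ : Fin (2 * k) => T).filter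
            (fun τ => (univ.image τ).card = d), T.card ^ k * p ^ (2 * k) := by
            refine sum_le_sum fun τ hτ => ?_
            have h2 := (mem_filter.1 hτ).2
            have h3 := two_card_le τ
            have h4 : (odds τ).card ≤ 2 * k := by
              refine (card_filter_le _ _).trans (card_image_le.trans ?_)
              simp
            rw [h2] at h3
            exact mom_aux hN hp h3 h4
        _ = _ * (T.card ^ k * p ^ (2 * k)) := by rw [sum_const, smul_eq_mul]
        _ ≤ (T.card ^ d * d ^ (2 * k)) * (T.card ^ k * p ^ (2 * k)) :=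
            Nat.mul_le_mul_right _ (card_values T)
        _ ≤ (T.card ^ d * (2 * k) ^ (2 * k)) * (T.card ^ k * p ^ (2 * k)) := by
            gcongr
        _ = _ := by ring
    exact Nat.le_of_mul_le_mul_left h1 (by positivity)
  refine (sum_le_sum hd).trans (le_of_eq ?_)
  rw [sum_const, Nat.card_Icc, smul_eq_mul]
  have : 2 * k + 1 - 1 = 2 * k := by omega
  rw [this]
  ring

/-- **MOM**. -/
theorem mom_of (hI : IND_stmt) : MOM_stmt := by
  intro k n p hk hp h2 hN T hT
  classical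
  rcases Nat.eq_zero_or_pos T.card with hT0 | hN1
  · have hT1 : T = ∅ := card_eq_zero.1 hT0
    subst hT1
    rw [sum_congr rfl fun s _ => by rw [sum_empty, zero_pow (by omega : 2 * k ≠ 0)], sum_const_zero]
    positivity
  have hTp : T.card ≤ p := by
    have h := card_le_card hT
    rw [card_range] at h
    omega
  have h1 : ∀ s, (∑ z ∈ T, (-1 : ℤ) ^ hs p (2 * k) s z) ^ (2 * k) =
      ∑ τ ∈ Fintype.piFinset fun _ : Fin (2 * k) => T,
        ∏ z ∈ odds τ, (-1 : ℤ) ^ hs p (2 * k) s z := by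
    intro s
    rw [sum_pow']
    refine sum_congr rfl fun τ _ => ?_
    rw [prod_odds τ fun z => hs p (2 * k) s z]
  rw [sum_congr rfl fun s _ => h1 s, sum_comm]
  have h3 : ∀ τ ∈ Fintype.piFinset fun _ : Fin (2 * k) => T,
      ∑ s ∈ range (p ^ (2 * k)),
        ∏ z ∈ odds τ, (-1 : ℤ) ^ hs p (2 * k) s z = ((p ^ (2 * k - (odds τ).card) : ℕ) : ℤ) := by
    intro τ hτ
    rw [Fintype.mem_piFinset] at hτ
    have h4 : odds τ ⊆ range p := by
      intro z hz
      obtain ⟨i, _, hi⟩ := mem_image.1 (mem_filter.1 hz).1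
      have := mem_range.1 (hT (hτ i))
      rw [mem_range]
      omega
    have h5 : (odds τ).card ≤ 2 * k := by
      refine (card_filter_le _ _).trans (card_image_le.trans ?_)
      simp
    rw [hI p (2 * k) hp h2 (odds τ) h4 h5]
    push_cast
    rfl
  rw [sum_congr rfl h3]
  have h7 := sum_pow_le (k := k) (p := p) T hk hN1 hTp
  have h8 : (((∑ τ ∈ Fintype.piFinset fun _ : Fin (2 * k) => T,
      p ^ (2 * k - (odds τ).card) : ℕ)) : ℤ) ≤
      (((2 * k) ^ (2 * k + 1) * p ^ (2 * k) * T.card ^ k : ℕ) : ℤ) := by exact_mod_cast h7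
  rw [Nat.cast_sum] at h8
  refine h8.trans (le_of_eq ?_)
  push_cast
  ring

/-- **MOM** without hypothesis. -/
theorem mom : MOM_stmt := mom_of Pool.Agent.Helper19.Gen3.ind

end Pool.Agent.Helper90.NS5
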